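import Mathlib

/-!
# The shift, its free part, recursive isomorphism, computable approximations along an orbit
-/

set_option autoImplicit false

namespace Pool.Agent.Helper65.CV

variable {Γ : Type} [Group Γ]

/-- The shift action of `Γ` on `(2^ℕ)^Γ`. -/
def shift (γ : Γ) (x : Γ → ℕ → Bool) : Γ → ℕ → Bool := fun δ => x (γ⁻¹ * δ)

/-- Points of the free part of the shift: the stabiliser is trivial. -/
def IsFree (x : Γ → ℕ → Bool) : Prop := ∀ γ : Γ, shift γ x = x → γ = 1

/-- Recursive isomorphism of subsets of `ℕ`, identified with points of `2^ℕ`. -/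
def RecIso (a b : ℕ → Bool) : Prop := ∃ π : ℕ → ℕ, Function.Bijective π ∧ Computable π ∧ a ∘ π = b

/-- Approximations of recursive isomorphisms from `f x` to `f (v 0 x)`, `f (v 1 x)`, … can be
chosen computably: there are a computable function `σ` of two variables, such that all `σ i` are
permutations of `ℕ`, and a computable function `g` which tends to infinity, with
`f (v i x) n = f x (σ i n)` whenever `n ≤ g i` or `σ i n ≤ g i`. -/
def ApproxAt (v : ℕ → Γ) (f : (Γ → ℕ → Bool) → (ℕ → Bool)) (x : Γ → ℕ → Bool) : Prop :=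
  ∃ (σ : ℕ → ℕ → ℕ) (g : ℕ → ℕ), Computable₂ σ ∧ (∀ i, Function.Bijective (σ i)) ∧
    Computable g ∧ Filter.Tendsto g Filter.atTop Filter.atTop ∧
    ∀ i n, (n ≤ g i ∨ σ i n ≤ g i) → f (shift (v i) x) n = f x (σ i n)

end Pool.Agent.Helper65.CV
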