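import Pool.Agent.Helper65.CU.Match

/-!
# A computable matching along a sequence of permutations, with a quality function

As `Pool.Agent.Helper65.CU.exists_match`, but the equality `a (q e) = b (σ e (q e))` is only
assumed if `q e ≤ g e` or `σ e (q e) ≤ g e`, where `g` is a computable function which tends to
infinity. The steps whose candidate is too large are skipped.
-/

set_option autoImplicit false

namespace Pool.Agent.Helper65.CV

open Pool.Agent.Helper65.CU Filter

/-- one step, skipped if the chosen candidate is larger than `g a.2` -/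
noncomputable def stepg (W : ℕ → ℕ → ℕ) (g : ℕ → ℕ) (a : St × ℕ) : St :=
  bif (cand a.1 (fnd W a) - g a.2 == 0) then step W a else a.1

/-- the states -/
noncomputable def stg (W : ℕ → ℕ → ℕ) (g : ℕ → ℕ) (n : ℕ) : St :=
  Nat.rec ((([], []), ([], 0)) : St) (fun k s => stepg W g (s, k)) n

theorem stg_succ (W : ℕ → ℕ → ℕ) (g : ℕ → ℕ) (n : ℕ) :
    stg W g (n + 1) = stepg W g (stg W g n, n) := rfl

theorem stepg_pos {W : ℕ → ℕ → ℕ} {g : ℕ → ℕ} {s : St} {e : ℕ}
    (h : cand s (fnd W (s, e)) ≤ g e) : stepg W g (s, e) = step W (s, e) := by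
  have h1 : cand s (fnd W (s, e)) - g e = 0 := Nat.sub_eq_zero_of_le h
  simp only [stepg, h1, beq_self_eq_true, cond_true]

theorem stepg_neg {W : ℕ → ℕ → ℕ} {g : ℕ → ℕ} {s : St} {e : ℕ}
    (h : ¬ cand s (fnd W (s, e)) ≤ g e) : stepg W g (s, e) = s := by
  have h1 : (cand s (fnd W (s, e)) - g e == 0) = false := by
    have : cand s (fnd W (s, e)) - g e ≠ 0 := by omega
    simpa using this
  simp only [stepg, h1, cond_false]

theorem stepg_comp {W : ℕ → ℕ → ℕ} {g : ℕ → ℕ} (hW : Computable₂ W) (hg : Computable g) :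
    Computable (stepg W g) := by
  have h1 : Computable (fun a : St × ℕ => (cand a.1 (fnd W a) - g a.2 == 0)) :=
    (Primrec.beq.to_comp).comp ((Primrec.nat_sub.to_comp).comp
      (cand_comp.comp Computable.fst (fnd_comp hW)) (hg.comp Computable.snd)) (Computable.const 0)
  exact Computable.cond h1 (step_comp hW) Computable.fst

theorem stg_comp {W : ℕ → ℕ → ℕ} {g : ℕ → ℕ} (hW : Computable₂ W) (hg : Computable g) :
    Computable (stg W g) := by
  have h : Computable₂ (fun (_ : ℕ) (p : ℕ × St) => stepg W g (p.2, p.1)) :=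
    (stepg_comp hW hg).comp ((Computable.snd.comp Computable.snd).pair
      (Computable.fst.comp Computable.snd))
  exact Computable.nat_rec (f := fun n : ℕ => n) (g := fun _ => ((([], []), ([], 0)) : St))
    (h := fun (_ : ℕ) (p : ℕ × St) => stepg W g (p.2, p.1)) Computable.id (Computable.const _) h

theorem inv_stg {W : ℕ → ℕ → ℕ} {g : ℕ → ℕ} (hW : ∀ u, Function.Injective (W u)) :
    ∀ n, Inv (stg W g n)
  | 0 => ⟨fun m c => by simp [stg], by simp [stg], by simp [stg]⟩
  | n + 1 => by
    rw [stg_succ]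
    by_cases h : cand (stg W g n) (fnd W (stg W g n, n)) ≤ g n
    · rw [stepg_pos h]; exact inv_step hW (inv_stg hW n) n
    · rw [stepg_neg h]; exact inv_stg hW n

theorem persistg {W : ℕ → ℕ → ℕ} {g : ℕ → ℕ} {s : St} {e : ℕ} {m c : ℕ} :
    (List.lookup m (ly s) = some c → List.lookup m (ly (stepg W g (s, e))) = some c) ∧
    (List.lookup m (lx s) = some c → List.lookup m (lx (stepg W g (s, e))) = some c) := by
  by_cases h : cand s (fnd W (s, e)) ≤ g e
  · rw [stepg_pos h]; exact persist
  · rw [stepg_neg h]; exact ⟨id, id⟩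

theorem persistg_ly {W : ℕ → ℕ → ℕ} {g : ℕ → ℕ} {m c k l : ℕ} (hkl : k ≤ l)
    (h : List.lookup m (ly (stg W g k)) = some c) : List.lookup m (ly (stg W g l)) = some c := by
  induction l, hkl using Nat.le_induction with
  | base => exact h
  | succ l _ ih => rw [stg_succ]; exact persistg.1 ih

theorem persistg_lx {W : ℕ → ℕ → ℕ} {g : ℕ → ℕ} {m c k l : ℕ} (hkl : k ≤ l)
    (h : List.lookup m (lx (stg W g k)) = some c) : List.lookup m (lx (stg W g l)) = some c := by
  induction l, hkl using Nat.le_induction with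
  | base => exact h
  | succ l _ ih => rw [stg_succ]; exact persistg.2 ih

/-! ### Every phase ends -/

/-- the candidates of a state are bounded -/
theorem cand_le (s : St) : ∃ b, ∀ j, cand s j ≤ b := by
  refine ⟨s.2.2 / 2 + (s.2.1.map Prod.snd).sum, fun j => ?_⟩
  rcases j with _ | i
  · exact Nat.le_add_right _ _
  · by_cases hi : i < s.2.1.length
    · rw [cand_succ s hi]
      have h1 : (s.2.1[i]).2 ∈ s.2.1.map Prod.snd :=
        List.mem_map.2 ⟨_, List.getElem_mem hi, rfl⟩
      exact (List.single_le_sum (fun _ _ => Nat.zero_le _) _ h1).trans (Nat.le_add_left _ _)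
    · have h1 : cand s (i + 1) = 0 := by
        simp [cand, List.getElem?_eq_none (not_lt.1 hi)]
      rw [h1]; exact Nat.zero_le _

/-- after waiting, a step is not skipped -/
theorem exists_active (W : ℕ → ℕ → ℕ) {g : ℕ → ℕ} (hg : Tendsto g atTop atTop) (n : ℕ) :
    ∃ k, n ≤ k ∧ stg W g k = stg W g n ∧ cand (stg W g k) (fnd W (stg W g k, k)) ≤ g k := by
  by_contra hno
  push Not at hno
  have key : ∀ k, stg W g (n + k) = stg W g n := by
    intro k
    induction k with
    | zero => rfl
    | succ k ih =>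
      have h1 := hno (n + k) (Nat.le_add_right _ _) ih
      rw [← add_assoc, stg_succ, stepg_neg (not_le.2 h1), ih]
  obtain ⟨b, hb⟩ := cand_le (stg W g n)
  obtain ⟨k, hk⟩ := Filter.eventually_atTop.1 (hg.eventually_ge_atTop b)
  have h1 := hno (n + k) (Nat.le_add_right _ _) (key k)
  have h2 := hk (n + k) (Nat.le_add_left _ _)
  have h3 := hb (fnd W (stg W g (n + k), n + k))
  rw [key k] at h1 h3
  omega

theorem phaseg_ends {W : ℕ → ℕ → ℕ} {g : ℕ → ℕ} (hW : ∀ u, Function.Injective (W u))
    (hg : Tendsto g atTop atTop) (r : ℕ) :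
    ∀ n, (stg W g n).1.2.length ≤ (stg W g n).2.1.length + r →
      ∃ k, (stg W g k).2.2 = (stg W g n).2.2 ∧ (stg W g (k + 1)).2.2 = (stg W g n).2.2 + 1 ∧
        stg W g (k + 1) = step W (stg W g k, k) := by
  induction r with
  | zero =>
    intro n hr
    obtain ⟨k, -, hkn, hk⟩ := exists_active W hg n
    have hs : stg W g (k + 1) = step W (stg W g k, k) := by rw [stg_succ, stepg_pos hk]
    rcases phase_cases W (stg W g k) k with h | ⟨h5, h6, h7⟩
    · exact ⟨k, by rw [hkn], by rw [hs, h, hkn], hs⟩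
    · rw [← hs] at h5 h6 h7
      have hle := active_le (inv_stg (g := g) hW (k + 1))
      rw [h5, h7, hkn] at hle
      omega
  | succ r ih =>
    intro n hr
    obtain ⟨k, -, hkn, hk⟩ := exists_active W hg n
    have hs : stg W g (k + 1) = step W (stg W g k, k) := by rw [stg_succ, stepg_pos hk]
    rcases phase_cases W (stg W g k) k with h | ⟨h5, h6, h7⟩
    · exact ⟨k, by rw [hkn], by rw [hs, h, hkn], hs⟩
    · rw [← hs] at h5 h6 h7
      obtain ⟨l, h8, h9, h10⟩ := ih (k + 1) (by rw [h5, h7, hkn]; omega)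
      exact ⟨l, by rw [h8, h6, hkn], by rw [h9, h6, hkn], h10⟩

theorem existsg_phase {W : ℕ → ℕ → ℕ} {g : ℕ → ℕ} (hW : ∀ u, Function.Injective (W u))
    (hg : Tendsto g atTop atTop) :
    ∀ p, ∃ k, (stg W g k).2.2 = p ∧ (stg W g (k + 1)).2.2 = p + 1 ∧
      stg W g (k + 1) = step W (stg W g k, k)
  | 0 => by
    obtain ⟨k, h1, h2, h3⟩ := phaseg_ends hW hg (stg W g 0).1.2.length 0 (Nat.le_add_left _ _)
    exact ⟨k, h1, h2, h3⟩
  | p + 1 => by
    obtain ⟨k, h1, h2, -⟩ := existsg_phase hW hg p
    obtain ⟨l, h3, h4, h5⟩ :=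
      phaseg_ends hW hg (stg W g (k + 1)).1.2.length (k + 1) (Nat.le_add_left _ _)
    exact ⟨l, by rw [h3, h2], by rw [h4, h2], h5⟩

theorem domg_all {W : ℕ → ℕ → ℕ} {g : ℕ → ℕ} (hW : ∀ u, Function.Injective (W u))
    (hg : Tendsto g atTop atTop) (m : ℕ) : ∃ k c, List.lookup m (ly (stg W g k)) = some c := by
  obtain ⟨k, h1, h2, h5⟩ := existsg_phase hW hg (2 * m)
  rw [h5, ← h1] at h2
  obtain ⟨c, hc⟩ := matched_end h2
  refine ⟨k + 1, c, ?_⟩
  rw [h1] at hc h2
  have h3 : 2 * m / 2 = m := by omega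
  rw [h3] at hc
  rw [h5, ly, h2]
  have h4 : (2 * m + 1).bodd = true := by simp [Nat.bodd_succ, Nat.bodd_mul]
  rw [h4]
  exact hc

theorem rang_all {W : ℕ → ℕ → ℕ} {g : ℕ → ℕ} (hW : ∀ u, Function.Injective (W u))
    (hg : Tendsto g atTop atTop) (c : ℕ) : ∃ k m, List.lookup c (lx (stg W g k)) = some m := by
  obtain ⟨k, h1, h2, h5⟩ := existsg_phase hW hg (2 * c + 1)
  rw [h5, ← h1] at h2
  obtain ⟨m, hm⟩ := matched_end h2
  refine ⟨k + 1, m, ?_⟩
  rw [h1] at hm h2
  have h3 : (2 * c + 1) / 2 = c := by omega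
  rw [h3] at hm
  rw [h5, lx, h2]
  have h4 : (2 * c + 1 + 1).bodd = false := by simp [Nat.bodd_succ, Nat.bodd_mul]
  rw [h4]
  exact hm

/-- **The matching lemma.** -/
theorem exists_matchg (σ : ℕ → ℕ → ℕ) (g : ℕ → ℕ) (hσ : Computable₂ σ) (hgc : Computable g)
    (hb : ∀ e, Function.Bijective (σ e)) (hg : Tendsto g atTop atTop) :
    ∃ (q : ℕ → ℕ) (π : ℕ → ℕ), Computable π ∧ Function.Bijective π ∧
      ∀ a b : ℕ → Bool, (∀ e, (q e ≤ g e ∨ σ e (q e) ≤ g e) → a (q e) = b (σ e (q e))) →
        ∀ n, a n = b (π n) := by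
  classical
  obtain ⟨τ, hτ, hστ, hτσ⟩ := inverse_comp hσ hb
  -- the oriented family
  set W : ℕ → ℕ → ℕ := fun u m => bif u.unpair.1.bodd then τ u.unpair.2 m else σ u.unpair.2 m
    with hWdef
  have hWc : Computable₂ W := by
    have hu : Computable (fun p : ℕ × ℕ => p.1.unpair) :=
      (Primrec.unpair.to_comp).comp Computable.fst
    have h1 : Computable (fun p : ℕ × ℕ => p.1.unpair.1.bodd) :=
      (Primrec.nat_bodd.to_comp).comp (Computable.fst.comp hu)
    exact Computable.cond h1 (hτ.comp (Computable.snd.comp hu) Computable.snd)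
      (hσ.comp (Computable.snd.comp hu) Computable.snd)
  have hW0 : ∀ p e m, p.bodd = false → W (Nat.pair p e) m = σ e m := by
    intro p e m hp
    simp only [hWdef, Nat.unpair_pair, hp, cond_false]
  have hW1 : ∀ p e m, p.bodd = true → W (Nat.pair p e) m = τ e m := by
    intro p e m hp
    simp only [hWdef, Nat.unpair_pair, hp, cond_true]
  have hWi : ∀ u, Function.Injective (W u) := by
    intro u m m' h
    simp only [hWdef] at h
    rcases hb' : u.unpair.1.bodd with _ | _
    · rw [hb'] at h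
      exact (hb _).1 h
    · rw [hb'] at h
      have h1 : τ u.unpair.2 m = τ u.unpair.2 m' := h
      rw [← hστ u.unpair.2 m, h1, hστ]
  -- the permutation
  have hex : ∀ n, ∃ k, (List.lookup n (ly (stg W g k))).isSome = true := by
    intro n
    obtain ⟨k, c, hc⟩ := domg_all hWi hg n
    exact ⟨k, by rw [hc]; rfl⟩
  set π : ℕ → ℕ := fun n => (List.lookup n (ly (stg W g (Nat.find (hex n))))).getD 0 with hπ
  have hl : Computable₂ (fun (n : ℕ) (D : List (ℕ × ℕ)) => List.lookup n D) :=
    Primrec.listLookup.to_comp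
  have hiS : Computable (fun o : Option ℕ => o.isSome) := Primrec.option_isSome.to_comp
  have hfc : Computable (fun n => Nat.find (hex n)) := by
    have h1 : Computable₂ (fun n k : ℕ => (List.lookup n (ly (stg W g k))).isSome) :=
      hiS.comp (hl.comp Computable.fst (ly_comp.comp ((stg_comp hWc hgc).comp Computable.snd)))
    have h0 : Partrec₂
        (fun n k : ℕ => (Part.some (List.lookup n (ly (stg W g k))).isSome : Part Bool)) :=
      h1.partrec₂
    have h2 := Partrec.rfind h0
    refine h2.of_eq (fun a => ?_)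
    refine Part.eq_some_iff.2 (Nat.mem_rfind.2 ⟨?_, fun {m} hm => ?_⟩)
    · have := Nat.find_spec (hex a)
      exact Part.mem_some_iff.2 this.symm
    · have := Nat.find_min (hex a) hm
      have h3 : (List.lookup a (ly (stg W g m))).isSome = false := Bool.eq_false_iff.2 this
      exact Part.mem_some_iff.2 h3.symm
  have hπc : Computable π :=
    Computable.option_getD (hl.comp Computable.id (ly_comp.comp ((stg_comp hWc hgc).comp hfc)))
      (Computable.const 0)
  have hπe : ∀ n, List.lookup n (ly (stg W g (Nat.find (hex n)))) = some (π n) := by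
    intro n
    obtain ⟨c, hc⟩ := Option.isSome_iff_exists.1 (Nat.find_spec (hex n))
    simp only [hπ, hc, Option.getD_some]
  have hπu : ∀ n k c, List.lookup n (ly (stg W g k)) = some c → π n = c := by
    intro n k c h
    have h1 := persistg_ly (le_max_left (Nat.find (hex n)) k) (hπe n)
    have h2 := persistg_ly (le_max_right (Nat.find (hex n)) k) h
    rw [h1] at h2
    exact Option.some_inj.1 h2
  have hπb : Function.Bijective π := by
    constructor
    · intro m m' h
      have h1 := persistg_ly (le_max_left (Nat.find (hex m)) (Nat.find (hex m'))) (hπe m)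
      have h2 := persistg_ly (le_max_right (Nat.find (hex m)) (Nat.find (hex m'))) (hπe m')
      rw [← h] at h2
      have h3 := (ly_iff_lx (inv_stg hWi _) _ _).1 h1
      have h4 := (ly_iff_lx (inv_stg hWi _) _ _).1 h2
      rw [h3] at h4
      exact Option.some_inj.1 h4
    · intro c
      obtain ⟨k, m, h⟩ := rang_all hWi hg c
      exact ⟨m, hπu m k c ((ly_iff_lx (inv_stg hWi k) _ _).2 h)⟩
  -- the edges
  refine ⟨fun e => bif (stg W g e).2.2.bodd then tgt W (stg W g e, e)
    else cand (stg W g e) (fnd W (stg W g e, e)), π, hπc, hπb, ?_⟩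
  intro a b hab
  have hcol : ∀ n, Col a b (stg W g n) := by
    intro n
    induction n with
    | zero => exact ⟨fun m c h => by simp [stg] at h, by simp [stg]⟩
    | succ n ih =>
      rw [stg_succ]
      by_cases hle : cand (stg W g n) (fnd W (stg W g n, n)) ≤ g n
      · rw [stepg_pos hle]
        refine col_step hWi (inv_stg hWi n) ih ?_
        have h := hab n
        have ht : tgt W (stg W g n, n) =
            W (Nat.pair (stg W g n).2.2 n) (cand (stg W g n) (fnd W (stg W g n, n))) := rfl
        simp only [cs, ct]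
        rcases hbd : (stg W g n).2.2.bodd with _ | _
        · rw [hW0 _ _ _ hbd] at ht
          simp only [hbd, cond_false] at h ⊢
          rw [h (Or.inl hle), ← ht]
        · rw [hW1 _ _ _ hbd] at ht
          simp only [hbd, cond_true] at h ⊢
          rw [h (Or.inr (by rw [ht, hστ]; exact hle)), ht, hστ]
      · rw [stepg_neg hle]; exact ih
  intro n
  obtain ⟨k, h1⟩ : ∃ k, List.lookup n (ly (stg W g k)) = some (π n) := ⟨_, hπe n⟩
  have h2 := (hcol k).1
  simp only [cs, ct] at h2
  simp only [ly] at h1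
  rcases hbd : (stg W g k).2.2.bodd with _ | _
  · simp only [hbd, cond_false] at h1 h2
    exact h2 _ _ h1
  · simp only [hbd, cond_true] at h1 h2
    exact (h2 _ _ (((inv_stg hWi _).match_iff _ _).2 h1)).symm

end Pool.Agent.Helper65.CV
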