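import Pool.Agent.Helper65.CU.Final
import Pool.Agent.Helper65.CV.Match

/-!
# Computable approximations of recursive isomorphisms along orbits
-/

set_option autoImplicit false

namespace Pool.Agent.Helper65.CV

open Pool.Agent.RI Pool.Agent.Helper65.CU Filter

variable {Γ : Type} [Group Γ]

/-- Computable families of permutations with a computable quality function. -/
def CG : Type := {s : (ℕ → ℕ → ℕ) × (ℕ → ℕ) // Computable₂ s.1 ∧
  (∀ i, Function.Bijective (s.1 i)) ∧ Computable s.2 ∧ Tendsto s.2 atTop atTop}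

instance : Countable CG := by
  have h1 : ∀ s : CG, ∃ c : Nat.Partrec.Code,
      c.eval = fun n => Part.some (s.1.1 n.unpair.1 n.unpair.2) := by
    intro s
    have h1 : Computable (fun n : ℕ => s.1.1 n.unpair.1 n.unpair.2) :=
      s.2.1.comp (Computable.fst.comp (Primrec.unpair.to_comp))
        (Computable.snd.comp (Primrec.unpair.to_comp))
    exact Nat.Partrec.Code.exists_code.1 (Partrec.nat_iff.1 h1)
  have h2 : ∀ s : CG, ∃ c : Nat.Partrec.Code, c.eval = fun n => Part.some (s.1.2 n) := by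
    intro s
    exact Nat.Partrec.Code.exists_code.1 (Partrec.nat_iff.1 s.2.2.2.1)
  choose c hc using h1
  choose d hd using h2
  have hinj : Function.Injective (fun s : CG => (c s, d s)) := by
    intro s t hst
    obtain ⟨h3, h4⟩ := Prod.ext_iff.1 hst
    apply Subtype.ext
    apply Prod.ext
    · funext i n
      have h1 := congrFun ((hc s).symm.trans ((congrArg _ h3).trans (hc t))) (Nat.pair i n)
      have h2 := Part.some_inj.1 h1
      simpa only [Nat.unpair_pair] using h2
    · funext n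
      exact Part.some_inj.1 (congrFun ((hd s).symm.trans ((congrArg _ h4).trans (hd t))) n)
  exact hinj.countable

instance : Inhabited CG :=
  ⟨⟨(fun _ n => n, fun n => n), Computable.snd, fun _ => Function.bijective_id, Computable.id,
    tendsto_id⟩⟩

theorem final (v : ℕ → Γ) (hv : Function.Injective (FreeGroup.lift v))
    (f : (Γ → ℕ → Bool) → (ℕ → Bool)) (hf : Measurable f)
    (hu : ∀ x, IsFree x → ∃ (σ : ℕ → ℕ → ℕ) (g : ℕ → ℕ), Computable₂ σ ∧
      (∀ i, Function.Bijective (σ i)) ∧ Computable g ∧ Tendsto g atTop atTop ∧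
      ∀ i n, (n ≤ g i ∨ σ i n ≤ g i) → f (shift (v i) x) n = f x (σ i n)) :
    ∃ y : ℕ → Γ → ℕ → Bool, (∀ l, IsFree (y l)) ∧
      (∀ l l', l ≠ l' → ∀ γ : Γ, shift γ (y l) ≠ y l') ∧
      ∀ l l', RecIso (f (y l)) (f (y l')) := by
  classical
  obtain ⟨P, hP⟩ := exists_surjective_nat CG
  set σ : ℕ → ℕ → ℕ → ℕ := fun K => (P K.unpair.1).1.1 with hσdef
  set g : ℕ → ℕ → ℕ := fun K => (P K.unpair.1).1.2 with hgdef
  have hσc : ∀ K, Computable₂ (σ K) := fun K => (P K.unpair.1).2.1
  have hσb : ∀ K i, Function.Bijective (σ K i) := fun K => (P K.unpair.1).2.2.1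
  have hgc : ∀ K, Computable (g K) := fun K => (P K.unpair.1).2.2.2.1
  have hgt : ∀ K, Tendsto (g K) atTop atTop := fun K => (P K.unpair.1).2.2.2.2
  have hpt : ∀ K : ℕ, Tendsto (fun e => Nat.pair K e) atTop atTop := fun K =>
    tendsto_atTop_mono (fun e => Nat.right_le_pair K e) tendsto_id
  have hmatch := fun K => exists_matchg (fun e n => σ K (Nat.pair K e) n)
    (fun e => g K (Nat.pair K e))
    ((hσc K).comp ((Primrec₂.natPair.to_comp).comp (Computable.const K) Computable.fst)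
      Computable.snd)
    ((hgc K).comp ((Primrec₂.natPair.to_comp).comp (Computable.const K) Computable.id))
    (fun e => hσb K _) ((hgt K).comp (hpt K))
  choose q π hπc hπb hπ using hmatch
  -- group elements
  set w : ℕ → ℕ → Γ := fun K n => v (Nat.pair K n) with hw
  have hκ0 := kappa_inj (fun _ n => Lt.pos n) (fun k n n' h => (Prod.ext_iff.1 h).1)
    (fun k n j j' h => by simp at h)
  set κ0 : FreeGroup (ℕ × ℕ) →* FreeGroup ℕ := FreeGroup.lift (fun e : ℕ × ℕ =>
      ((Lt.pos (e.2 + 1)).el e.1)⁻¹ * (Lt.pos 0).el e.1) with hκ0def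
  set κ : FreeGroup (ℕ × ℕ) →* Γ := (FreeGroup.lift v).comp κ0 with hκdef
  have hκ : Function.Injective κ := hv.comp hκ0
  have hκof : ∀ k n, κ (FreeGroup.of (k, n)) = (w k (n + 1))⁻¹ * w k 0 := by
    intro k n
    simp only [hκdef, hκ0def, MonoidHom.comp_apply, FreeGroup.lift_apply_of, map_mul, map_inv, hw,
      Lt.el]
  -- the map Φ
  obtain ⟨φ, φm, φi, φ0⟩ := exists_code
  set Φ : Cf → (Γ → ℕ → Bool) := fun z γ =>
    if h : ∃ m, κ m = γ then φ (act (iota h.choose)⁻¹ z) else fun _ => false with hΦ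
  have Φκ : ∀ z m, Φ z (κ m) = φ (act (iota m)⁻¹ z) := by
    intro z m
    have h : ∃ m', κ m' = κ m := ⟨m, rfl⟩
    simp only [hΦ, h, dif_pos]
    rw [hκ h.choose_spec]
  have Φ0 : ∀ z γ, (¬ ∃ m, κ m = γ) → Φ z γ = fun _ => false := by
    intro z γ h
    simp only [hΦ, h, dif_neg, not_false_eq_true]
  have Φ1 : ∀ z, Φ z 1 = φ z := by
    intro z
    have := Φκ z 1
    rwa [map_one, map_one, inv_one, act_one] at this
  have Φe : ∀ m z, Φ (act (iota m) z) = shift (κ m) (Φ z) := by
    intro m z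
    funext γ
    by_cases h : ∃ m', κ m' = γ
    · obtain ⟨m', rfl⟩ := h
      rw [Φκ]
      show _ = Φ z ((κ m)⁻¹ * κ m')
      have h1 : (κ m)⁻¹ * κ m' = κ (m⁻¹ * m') := by rw [map_mul, map_inv]
      rw [h1, Φκ, ← act_mul, map_mul, map_inv, mul_inv_rev, inv_inv]
    · rw [Φ0 _ _ h]
      show _ = Φ z ((κ m)⁻¹ * γ)
      rw [Φ0]
      rintro ⟨m', hm'⟩
      exact h ⟨m * m', by rw [map_mul, hm', mul_inv_cancel_left]⟩
  have Φm : Measurable Φ := by
    refine measurable_pi_iff.2 fun γ => ?_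
    by_cases h : ∃ m, κ m = γ
    · obtain ⟨m, rfl⟩ := h
      have : (fun z => Φ z (κ m)) = fun z => φ (act (iota m)⁻¹ z) := funext fun z => Φκ z m
      rw [this]
      exact φm.comp (measurable_act _)
    · have : (fun z => Φ z γ) = fun _ => fun _ => false := funext fun z => Φ0 z γ h
      rw [this]
      exact measurable_const
  have Φf : ∀ z, ¬ NonFree z → IsFree (Φ z) := by
    intro z hz γ hγ
    have h1 : Φ z γ = φ z := by
      have := congrFun hγ γ
      rw [← this]
      show Φ z (γ⁻¹ * γ) = φ z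
      rw [inv_mul_cancel, Φ1]
    by_cases h : ∃ m, κ m = γ
    · obtain ⟨m, rfl⟩ := h
      rw [Φκ] at h1
      have h2 := φi h1
      by_cases h3 : (iota m)⁻¹ = 1
      · have h4 : iota m = iota 1 := by rw [map_one]; exact inv_eq_one.1 h3
        rw [iota_inj h4, map_one]
      · exact absurd ⟨_, h3, h2⟩ hz
    · rw [Φ0 _ _ h] at h1
      exact absurd h1.symm (φ0 z)
  have Φorb : ∀ z z' γ, Φ z' = shift γ (Φ z) → ∃ m, z' = act (iota m) z := by
    intro z z' γ h
    have h1 : φ z' = Φ z γ⁻¹ := by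
      rw [← Φ1 z', h]
      show Φ z (γ⁻¹ * 1) = _
      rw [mul_one]
    by_cases h2 : ∃ m, κ m = γ⁻¹
    · obtain ⟨m, hm⟩ := h2
      rw [← hm, Φκ] at h1
      exact ⟨m⁻¹, by rw [map_inv]; exact φi h1⟩
    · rw [Φ0 _ _ h2] at h1
      exact absurd h1 (φ0 z')
  -- the sets to be avoided
  obtain ⟨N, Nm, Ncov, Nsub, N3⟩ := nonfree_cover
  set D : ℕ → Cf → Bool := fun e z =>
    f (shift (w e.unpair.1 e.unpair.2) (Φ z)) (q e.unpair.1 e.unpair.2) with hD
  have Dm : ∀ e, Measurable (D e) := by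
    intro e
    exact (measurable_pi_apply _).comp (hf.comp ((measurable_shift _).comp Φm))
  set B : ℕ → Set Cf := fun e =>
    {z | ¬ NonFree z ∧ D e (act (thp e 1) z) ≠ D e z} with hB
  have Bm : ∀ e, MeasurableSet (B e) := by
    intro e
    exact MeasurableSet.inter measurableSet_nonFree.compl
      (measurableSet_eq_fun ((Dm e).comp (measurable_act _)) (Dm e)).compl
  obtain ⟨z, hz, hzA⟩ := exists_avoid (fun e => N e ∪ B e) (fun e => (Nm e).union (Bm e)) (by
    rintro e z hz ⟨h0, h1, h2⟩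
    by_cases hn : NonFree z
    · refine N3 e z hz ⟨?_, ?_, ?_⟩
      · exact h0.resolve_right fun h => h.1 hn
      · exact h1.resolve_right fun h => h.1 (hn.act _)
      · exact h2.resolve_right fun h => h.1 (hn.act _)
    · have b0 : z ∈ B e := h0.resolve_left fun h => hn (Nsub _ _ h)
      have b1 : act (thp e 1) z ∈ B e := h1.resolve_left fun h => hn (Nsub _ _ h).of_act
      have b2 : act (thp e 2) z ∈ B e := h2.resolve_left fun h => hn (Nsub _ _ h).of_act
      have e1 : act (thp e 1) (act (thp e 1) z) = act (thp e 2) z := by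
        rw [← act_mul, ← thp_add]; rfl
      have e2 : act (thp e 1) (act (thp e 2) z) = z := by
        rw [← act_mul, ← thp_add]
        have : (1 : ZMod 3) + 2 = 0 := by decide
        rw [this, thp_zero, act_one]
      have d0 := b0.2
      have d1 := b1.2
      have d2 := b2.2
      rw [e1] at d1
      rw [e2] at d2
      revert d0 d1 d2
      cases D e z <;> cases D e (act (thp e 1) z) <;> cases D e (act (thp e 2) z) <;> simp)
  have hfree : ¬ NonFree z := by
    intro h
    obtain ⟨n, hn⟩ := Ncov z hz h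
    exact hzA n (Or.inl hn)
  have hx := Φf z hfree
  -- the family of `Φ z`
  obtain ⟨s, r, hsc, hsb, hrc, hrt, hs⟩ := hu _ hx
  obtain ⟨k, hk⟩ := hP ⟨(s, r), hsc, hsb, hrc, hrt⟩
  have hσk : ∀ l, σ (Nat.pair k l) = s := by
    intro l
    simp only [hσdef, Nat.unpair_pair, hk]
  have hgk : ∀ l, g (Nat.pair k l) = r := by
    intro l
    simp only [hgdef, Nat.unpair_pair, hk]
  have hDeq : ∀ K n, f (shift (w K n) (Φ (act (thp (Nat.pair K n) 1) z))) (q K n) =
      f (shift (w K n) (Φ z)) (q K n) := by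
    intro K n
    by_contra hne
    apply hzA (Nat.pair K n)
    right
    refine ⟨hfree, ?_⟩
    simp only [hD, Nat.unpair_pair]
    exact hne
  have hy : ∀ K n, shift (w K n) (Φ (act (thp (Nat.pair K n) 1) z)) =
      shift (w K 0) (Φ (act (thp (Nat.pair K 0) 1) z)) := by
    intro K n
    cases n with
    | zero => rfl
    | succ n =>
      have h1 : thp (Nat.pair K (n + 1)) 1 = iota (FreeGroup.of (K, n)) * thp (Nat.pair K 0) 1 := by
        simp only [iota, FreeGroup.lift_apply_of, inv_mul_cancel_right]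
      rw [h1, act_mul, Φe, hκof, ← shift_mul, mul_inv_cancel_left]
  have hiso : ∀ l, RecIso (f (Φ z))
      (f (shift (w (Nat.pair k l) 0) (Φ (act (thp (Nat.pair (Nat.pair k l) 0) 1) z)))) := by
    intro l
    refine ⟨π (Nat.pair k l), hπb _, hπc _, ?_⟩
    funext n
    refine (hπ (Nat.pair k l) (f (shift (w (Nat.pair k l) 0)
      (Φ (act (thp (Nat.pair (Nat.pair k l) 0) 1) z)))) (f (Φ z)) ?_ n).symm
    intro e hle
    rw [hgk l, hσk l] at hle
    rw [← hy (Nat.pair k l) e, hDeq, hσk l]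
    show f (shift (v (Nat.pair (Nat.pair k l) e)) (Φ z)) _ = _
    exact hs _ _ hle
  refine ⟨fun l => shift (w (Nat.pair k l) 0) (Φ (act (thp (Nat.pair (Nat.pair k l) 0) 1) z)),
    fun l => (Φf _ fun h => hfree h.of_act).shift _, ?_, fun l l' => recIso_trans (recIso_symm (hiso l)) (hiso l')⟩
  intro l l' hll γ hγ
  have h1 : Φ (act (thp (Nat.pair (Nat.pair k l') 0) 1) z) =
      shift ((w (Nat.pair k l') 0)⁻¹ * γ * w (Nat.pair k l) 0)
        (Φ (act (thp (Nat.pair (Nat.pair k l) 0) 1) z)) := by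
    rw [shift_mul, shift_mul, hγ, ← shift_mul, inv_mul_cancel, shift_one]
  obtain ⟨m, hm⟩ := Φorb _ _ _ h1
  have h2 : act ((thp (Nat.pair (Nat.pair k l') 0) 1)⁻¹ * (iota m * thp (Nat.pair (Nat.pair k l) 0) 1))
      z = z := by
    rw [act_mul, act_mul, ← hm, ← act_mul, inv_mul_cancel, act_one]
  have h3 : (thp (Nat.pair (Nat.pair k l') 0) 1)⁻¹ * (iota m * thp (Nat.pair (Nat.pair k l) 0) 1) =
      1 := by
    by_contra h
    exact hfree ⟨_, h, h2⟩
  obtain ⟨h, hi, hth⟩ := exists_block (Nat.pair k l)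
  have h4 := congrArg h h3
  have h5 : Nat.pair k l' ≠ Nat.pair k l := by
    intro h6
    exact hll (Nat.pair_eq_pair.1 h6).2.symm
  rw [map_mul, map_mul, map_inv, hi, hth, hth, if_neg h5, if_pos rfl, inv_one, one_mul, one_mul,
    h.map_one] at h4
  exact absurd h4 (by decide)

/-- The case of exact computable families. -/
theorem exact_case (v : ℕ → Γ) (hv : Function.Injective (FreeGroup.lift v))
    (f : (Γ → ℕ → Bool) → (ℕ → Bool)) (hf : Measurable f)
    (hu : ∀ x, IsFree x → ∃ σ : ℕ → ℕ → ℕ, Computable₂ σ ∧ (∀ i, Function.Bijective (σ i)) ∧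
      ∀ i, f (shift (v i) x) = f x ∘ σ i) :
    ∃ y : ℕ → Γ → ℕ → Bool, (∀ l, IsFree (y l)) ∧
      (∀ l l', l ≠ l' → ∀ γ : Γ, shift γ (y l) ≠ y l') ∧
      ∀ l l', RecIso (f (y l)) (f (y l')) := by
  refine final v hv f hf fun x hx => ?_
  obtain ⟨σ, h1, h2, h3⟩ := hu x hx
  exact ⟨σ, fun n => n, h1, h2, Computable.id, tendsto_id, fun i n _ => congrFun (h3 i) n⟩

end Pool.Agent.Helper65.CV
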